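import Pool.Agent.H95.FI.Defs

namespace H32.FI
open Finset

theorem key (a : ℕ) (N : Finset (Fin a →₀ ℕ)) :
    N.card * a ≤ ((univ ×ˢ N).image
      (fun x : Fin a × (Fin a →₀ ℕ) => Finsupp.single x.1 1 + x.2)).card
        + N.card * (N.card - 1) / 2 := by
  classical
  induction N using Finset.induction_on with
  | empty => simp
  | insert ν N hν ih =>
    set P := ((univ ×ˢ N).image
      (fun x : Fin a × (Fin a →₀ ℕ) => Finsupp.single x.1 1 + x.2)) with hP
    set R := univ.image (fun i : Fin a => Finsupp.single i 1 + ν) with hR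
    have hQ : ((univ ×ˢ insert ν N).image
        (fun x : Fin a × (Fin a →₀ ℕ) => Finsupp.single x.1 1 + x.2)) = R ∪ P := by
      ext y
      simp only [hP, hR, mem_image, mem_product, mem_univ, true_and, mem_insert, mem_union,
        Prod.exists]
      constructor
      · rintro ⟨i, b, rfl | hb, rfl⟩
        · exact Or.inl ⟨i, rfl⟩
        · exact Or.inr ⟨i, b, hb, rfl⟩
      · rintro (⟨i, rfl⟩ | ⟨i, b, hb, rfl⟩)
        · exact ⟨i, ν, Or.inl rfl, rfl⟩
        · exact ⟨i, b, Or.inr hb, rfl⟩
    have hRc : R.card = a := by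
      rw [hR, card_image_of_injective, card_univ, Fintype.card_fin]
      intro i j hij
      have h2 := add_right_cancel (show Finsupp.single i 1 + ν = Finsupp.single j 1 + ν from hij)
      exact (Finsupp.single_left_inj one_ne_zero).1 h2
    have hI : (R ∩ P).card ≤ N.card := by
      refine card_le_card_of_forall_subsingleton
        (fun y ν' => ∃ i' : Fin a, y = Finsupp.single i' 1 + ν') ?_ ?_
      · intro y hy
        obtain ⟨⟨i', ν'⟩, h1, rfl⟩ := mem_image.1 (mem_inter.1 hy).2
        exact ⟨ν', (mem_product.1 h1).2, i', rfl⟩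
      · intro ν' hν' y1 hy1 y2 hy2
        obtain ⟨hy1, i', hi'⟩ := hy1
        obtain ⟨hy2, j', hj'⟩ := hy2
        obtain ⟨i, -, hi⟩ := mem_image.1 (mem_inter.1 hy1).1
        obtain ⟨j, -, hj⟩ := mem_image.1 (mem_inter.1 hy2).1
        have hne : ν ≠ ν' := fun h => hν (h ▸ hν')
        have e1 : Finsupp.single i 1 + ν = Finsupp.single i' 1 + ν' := by
          rw [← hi']; exact hi
        have e2 : Finsupp.single j 1 + ν = Finsupp.single j' 1 + ν' := by
          rw [← hj']; exact hj
        have hii : i' ≠ i := by
          rintro rfl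
          exact hne (add_left_cancel e1)
        have f1 := DFunLike.congr_fun e1 i
        have f2 := DFunLike.congr_fun e2 i
        rw [Finsupp.add_apply, Finsupp.add_apply, Finsupp.single_eq_same,
          Finsupp.single_eq_of_ne hii.symm] at f1
        have hij : i = j := by
          by_contra hc
          rw [Finsupp.add_apply, Finsupp.add_apply, Finsupp.single_eq_of_ne hc] at f2
          omega
        rw [← hi, ← hj, hij]
    have hcup := card_union_add_card_inter R P
    rw [hQ, card_insert_of_notMem hν]
    have e3 : (N.card + 1) * (N.card + 1 - 1) / 2 = N.card * (N.card - 1) / 2 + N.card := by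
      have : (N.card + 1) * (N.card + 1 - 1) = N.card * (N.card - 1) + 2 * N.card := by
        rcases Nat.eq_zero_or_pos N.card with h | h
        · rw [h]
        · obtain ⟨k, hk⟩ := Nat.exists_eq_succ_of_ne_zero h.ne'
          rw [hk]; simp only [Nat.succ_eq_add_one, Nat.add_sub_cancel]; ring
      rw [this]; omega
    rw [e3]
    have e4 : (N.card + 1) * a = N.card * a + a := by ring
    omega

theorem t_MACB' : ∀ (a t : ℕ) (μ : Fin t → (Fin a →₀ ℕ)), Function.Injective μ →
    t * a ≤ (Finset.univ.image (fun x : Fin a × Fin t => Finsupp.single x.1 1 + μ x.2)).card +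
      t * (t - 1) / 2 := by
  intro a t μ hμ
  classical
  have h := key a (univ.image μ)
  rw [card_image_of_injective _ hμ, card_univ, Fintype.card_fin] at h
  have e : ((univ ×ˢ univ.image μ).image
      (fun x : Fin a × (Fin a →₀ ℕ) => Finsupp.single x.1 1 + x.2))
      = Finset.univ.image (fun x : Fin a × Fin t => Finsupp.single x.1 1 + μ x.2) := by
    ext y
    simp only [mem_image, mem_product, mem_univ, true_and, Prod.exists]
    constructor
    · rintro ⟨i, b, ⟨j, rfl⟩, rfl⟩
      exact ⟨i, j, rfl⟩
    · rintro ⟨i, j, rfl⟩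
      exact ⟨i, μ j, ⟨j, rfl⟩, rfl⟩
  rw [e] at h
  convert h using 2

theorem t_MACB : H95.FI.S_MACB := by
  intro a t μ hμ
  have h := t_MACB' a t μ hμ
  convert h using 3

end H32.FI
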